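import Mathlib
import Pool.Agent.H49R2.Main

/-!
# MP_e7684b_al, Q1: solvable alternative varieties in characteristic three

Over every field `F` of characteristic three there is a variety of (even commutative) alternative
`F`-algebras, solvable with a uniform bound, which is not defined by any finite set of
identities.

The models witnessing this are finite-dimensional algebras
`V + E + E + F`, where `E` is the exterior algebra of `V = F ^ (6 m + 6)`.
-/

set_option autoImplicit false

namespace Pool.Agent.Results.MP_e7684b_al.NotFinitelyBased

universe u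

open Pool.Agent.H49R2

/-- The free nonassociative (non-unital) `F`-algebra on countably many generators
`x 0, x 1, x 2, …`. Its elements are the nonassociative polynomials. -/
abbrev Poly (F : Type u) [Field F] : Type u := FreeNonUnitalNonAssocAlgebra F ℕ

section

variable (F : Type u) [Field F] (A : Type u) [NonUnitalNonAssocRing A] [Module F A]
  [IsScalarTower F A A] [SMulCommClass F A A]

/-- The `F`-algebra `A` satisfies every identity `p = 0` with `p ∈ S`, that is: `A` belongs to the
variety of nonassociative `F`-algebras defined by the set `S` of identities. -/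
def InVariety (S : Set (Poly F)) : Prop :=
  ∀ p ∈ S, ∀ w : ℕ → A, FreeNonUnitalNonAssocAlgebra.lift F w p = 0

/-- `A` is alternative: `(x, x, y) = 0` and `(y, x, x) = 0` for all `x`, `y`. -/
def IsAlternative (A : Type u) [NonUnitalNonAssocRing A] : Prop :=
  ∀ x y : A, (x * x) * y - x * (x * y) = 0 ∧ (y * x) * x - y * (x * x) = 0

/-- The derived series: `derived F A k` is `A^(k+1)` in the numbering of the problem file, that is
`derived F A 0 = A`, and `derived F A (k + 1)` is the linear span of all the products of two
elements of `derived F A k`. -/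
def derived : ℕ → Submodule F A
  | 0 => ⊤
  | k + 1 => Submodule.span F {z | ∃ x ∈ derived k, ∃ y ∈ derived k, z = x * y}

end

/-- The variety of `F`-algebras defined by `S` is a solvable variety of alternative algebras: all
its members are alternative, and `A^(n+1) = 0` for all its members, with one `n` for all. -/
def SolvableAlternativeVariety (F : Type u) [Field F] (S : Set (Poly F)) : Prop :=
  (∀ (A : Type u) [NonUnitalNonAssocRing A] [Module F A] [IsScalarTower F A A]
      [SMulCommClass F A A], InVariety F A S → IsAlternative A) ∧
    ∃ n : ℕ, ∀ (A : Type u) [NonUnitalNonAssocRing A] [Module F A] [IsScalarTower F A A]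
      [SMulCommClass F A A], InVariety F A S → derived F A n = ⊥

/-- The variety of `F`-algebras defined by `S` is defined by a finite set of identities. -/
def FinitelyBased (F : Type u) [Field F] (S : Set (Poly F)) : Prop :=
  ∃ S' : Set (Poly F), S'.Finite ∧
    ∀ (A : Type u) [NonUnitalNonAssocRing A] [Module F A] [IsScalarTower F A A]
      [SMulCommClass F A A], InVariety F A S' ↔ InVariety F A S

section

variable {F : Type u} [Field F] {A : Type u} [NonUnitalNonAssocRing A] [Module F A]
  [IsScalarTower F A A] [SMulCommClass F A A]

theorem comm_of (h : InVariety F A (bigS F)) (x y : A) : x * y = y * x := by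
  have h1 := h (commPoly F) (by simp [bigS]) (fun i => if i = 0 then x else y)
  rw [lift_comm] at h1
  simpa [sub_eq_zero] using h1

theorem alt_of (h : InVariety F A (bigS F)) (x y : A) : (x * x) * y = x * (x * y) := by
  have h1 := h (altPoly F) (by simp [bigS]) (fun i => if i = 0 then x else y)
  rw [lift_alt] at h1
  simpa [sub_eq_zero] using h1

theorem solv_of (h : InVariety F A (bigS F)) (x : Fin 8 → A) :
    ((x 0 * x 1) * (x 2 * x 3)) * ((x 4 * x 5) * (x 6 * x 7)) = 0 := by
  have h1 := h (solvPoly F) (by simp [bigS]) (fun i => if h : i < 8 then x ⟨i, h⟩ else 0)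
  rw [lift_solv] at h1
  simpa using h1

theorem mul_zero_of_mem_span {s t : Set A} (h : ∀ x ∈ s, ∀ y ∈ t, x * y = 0) {x y : A}
    (hx : x ∈ Submodule.span F s) (hy : y ∈ Submodule.span F t) : x * y = 0 := by
  induction hx using Submodule.span_induction with
  | mem a ha =>
    induction hy using Submodule.span_induction with
    | mem b hb => exact h a ha b hb
    | zero => exact mul_zero _
    | add b c _ _ hb hc => rw [mul_add, hb, hc, add_zero]
    | smul r b _ hb => rw [mul_smul_comm, hb, smul_zero]
  | zero => exact zero_mul _
  | add a c _ _ ha hc => rw [add_mul, ha, hc, add_zero]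
  | smul r a _ ha => rw [smul_mul_assoc, ha, smul_zero]

theorem derived_of (h : InVariety F A (bigS F)) : derived F A 3 = ⊥ := by
  have h2 : ∀ x ∈ derived F A 2, ∀ y ∈ derived F A 2, x * y = 0 := by
    intro x hx y hy
    rw [derived] at hx hy
    refine mul_zero_of_mem_span (F := F) ?_ hx hy
    rintro _ ⟨a, ha, b, hb, rfl⟩ _ ⟨c, hc, d, hd, rfl⟩
    have h1 : ∀ a ∈ derived F A 1, ∀ b ∈ derived F A 1, ∀ c ∈ derived F A 1,
        ∀ d ∈ derived F A 1, (a * b) * (c * d) = 0 := by
      have hm : ∀ P : A → Prop, (∀ x y, P (x * y)) → P 0 → (∀ a b, P a → P b → P (a + b)) →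
          (∀ (r : F) a, P a → P (r • a)) → ∀ a ∈ derived F A 1, P a := by
        intro P hp h0 ha hs a ham
        rw [derived] at ham
        induction ham using Submodule.span_induction with
        | mem a ha =>
          obtain ⟨x, -, y, -, rfl⟩ := ha
          exact hp x y
        | zero => exact h0
        | add a b _ _ h1 h2 => exact ha a b h1 h2
        | smul r a _ h1 => exact hs r a h1
      refine hm _ (fun x₁ x₂ => ?_) (by intros; simp) (fun a b ha hb => ?_) (fun r a ha => ?_)
      · refine hm _ (fun x₃ x₄ => ?_) (by intros; simp) (fun a b ha hb => ?_) (fun r a ha => ?_)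
        · refine hm _ (fun x₅ x₆ => ?_) (by intros; simp) (fun a b ha hb => ?_)
            (fun r a ha => ?_)
          · refine hm _ (fun x₇ x₈ => ?_) (by simp) (fun a b ha hb => ?_)
              (fun r a ha => ?_)
            · exact solv_of h ![x₁, x₂, x₃, x₄, x₅, x₆, x₇, x₈]
            · rw [mul_add, mul_add, ha, hb, add_zero]
            · rw [mul_smul_comm, mul_smul_comm, ha, smul_zero]
          · intro d hd
            rw [add_mul, mul_add, ha d hd, hb d hd, add_zero]
          · intro d hd
            rw [smul_mul_assoc, mul_smul_comm, ha d hd, smul_zero]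
        · intro c hc d hd
          rw [mul_add, add_mul, ha c hc d hd, hb c hc d hd, add_zero]
        · intro c hc d hd
          rw [mul_smul_comm, smul_mul_assoc, ha c hc d hd, smul_zero]
      · intro b' hb' c hc d hd
        rw [add_mul, add_mul, ha b' hb' c hc d hd, hb b' hb' c hc d hd, add_zero]
      · intro b' hb' c hc d hd
        rw [smul_mul_assoc, smul_mul_assoc, ha b' hb' c hc d hd, smul_zero]
    exact h1 a ha b hb c hc d hd
  rw [derived, Submodule.span_eq_bot]
  rintro _ ⟨x, hx, y, hy, rfl⟩
  exact h2 x hx y hy

end

/-- Over every field of characteristic three there is a solvable variety of alternative algebras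
(even of commutative ones, with `A^(4) = 0`) which has no finite basis of identities. -/
theorem result (F : Type u) [Field F] [CharP F 3] :
    ∃ S : Set (Poly F), SolvableAlternativeVariety F S ∧
      (∀ (A : Type u) [NonUnitalNonAssocRing A] [Module F A] [IsScalarTower F A A]
        [SMulCommClass F A A], InVariety F A S → (∀ x y : A, x * y = y * x) ∧
          derived F A 3 = ⊥) ∧
      ¬ FinitelyBased F S := by
  refine ⟨bigS F, ⟨?_, 3, ?_⟩, ?_, ?_⟩
  · intro A _ _ _ _ h x y
    constructor
    · rw [alt_of h, sub_self]
    · rw [comm_of h (y * x) x, comm_of h y x, ← alt_of h, comm_of h y (x * x), sub_self]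
  · intro A _ _ _ _ h
    exact derived_of h
  · intro A _ _ _ _ h
    exact ⟨comm_of h, derived_of h⟩
  · rintro ⟨S', hfin, h⟩
    exact not_finitely_based F S' hfin (fun A _ _ _ _ => h A)

end Pool.Agent.Results.MP_e7684b_al.NotFinitelyBased
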